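import Mathlib

/-!
# Two-colour Ramsey numbers: basic facts

`ramsey k l` is the least `n` such that every graph on `Fin n` contains a `k`-clique or an
independent set of size `l`.
-/

namespace Pool.Agent.Hhelper59.Rk

open Finset

/-- The two-colour Ramsey number `R(k, l)`: the least `n` such that every graph on `n` vertices
(the red edges; the blue edges are those of the complement) contains a clique on `k` vertices or
its complement contains a clique on `l` vertices. -/
noncomputable def ramsey (k l : ℕ) : ℕ :=
  sInf {n : ℕ | ∀ G : SimpleGraph (Fin n), ¬ G.CliqueFree k ∨ ¬ Gᶜ.CliqueFree l}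

/-- Erdős–Szekeres, finset version. -/
theorem erdos_szekeres {V : Type*} [DecidableEq V] (G : SimpleGraph V) :
    ∀ (k l : ℕ) (s : Finset V), (k + l).choose k ≤ s.card →
      (∃ t ⊆ s, G.IsNClique (k + 1) t) ∨ (∃ t ⊆ s, Gᶜ.IsNClique (l + 1) t) := by
  classical
  intro k
  induction k with
  | zero =>
    intro l s hs
    simp only [zero_add, Nat.choose_zero_right] at hs
    obtain ⟨v, hv⟩ := Finset.card_pos.mp hs
    refine Or.inl ⟨{v}, by simpa using hv, ?_⟩
    simp [SimpleGraph.isNClique_iff, SimpleGraph.isClique_iff]
  | succ k ihk =>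
    intro l
    induction l with
    | zero =>
      intro s hs
      simp only [add_zero, Nat.choose_self] at hs
      obtain ⟨v, hv⟩ := Finset.card_pos.mp hs
      refine Or.inr ⟨{v}, by simpa using hv, ?_⟩
      simp [SimpleGraph.isNClique_iff, SimpleGraph.isClique_iff]
    | succ l ihl =>
      intro s hs
      have hch : (k + 1 + (l + 1)).choose (k + 1) =
          (k + (l + 1)).choose k + (k + 1 + l).choose (k + 1) := by
        have h1 : k + 1 + (l + 1) = (k + (l + 1)) + 1 := by ring
        have h2 : k + 1 + l = k + (l + 1) := by ring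
        rw [h1, h2, Nat.choose_succ_succ]
      have hpos : 0 < s.card := by
        refine lt_of_lt_of_le ?_ hs
        exact Nat.choose_pos (by omega)
      obtain ⟨v, hv⟩ := Finset.card_pos.mp hpos
      set A := (s.erase v).filter (fun w => G.Adj v w) with hA
      set B := (s.erase v).filter (fun w => ¬ G.Adj v w) with hB
      have hAB : A.card + B.card + 1 = s.card := by
        have := Finset.card_filter_add_card_filter_not (s := s.erase v) (fun w => G.Adj v w)
        rw [← hA, ← hB] at this
        rw [this, Finset.card_erase_add_one hv]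
      have hcase : (k + (l + 1)).choose k ≤ A.card ∨ (k + 1 + l).choose (k + 1) ≤ B.card := by
        by_contra hcon
        push Not at hcon
        omega
      rcases hcase with h | h
      · rcases ihk (l + 1) A h with ⟨t, ht, hc⟩ | ⟨t, ht, hc⟩
        · left
          refine ⟨insert v t, ?_, ?_⟩
          · intro w hw
            rw [Finset.mem_insert] at hw
            rcases hw with rfl | hw
            · exact hv
            · have := ht hw
              rw [hA, Finset.mem_filter, Finset.mem_erase] at this
              exact this.1.2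
          · refine hc.insert ?_
            intro w hw
            have := ht hw
            rw [hA, Finset.mem_filter] at this
            exact this.2
        · right
          refine ⟨t, ?_, hc⟩
          intro w hw
          have := ht hw
          rw [hA, Finset.mem_filter, Finset.mem_erase] at this
          exact this.1.2
      · rcases ihl B h with ⟨t, ht, hc⟩ | ⟨t, ht, hc⟩
        · left
          refine ⟨t, ?_, hc⟩
          intro w hw
          have := ht hw
          rw [hB, Finset.mem_filter, Finset.mem_erase] at this
          exact this.1.2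
        · right
          refine ⟨insert v t, ?_, ?_⟩
          · intro w hw
            rw [Finset.mem_insert] at hw
            rcases hw with rfl | hw
            · exact hv
            · have := ht hw
              rw [hB, Finset.mem_filter, Finset.mem_erase] at this
              exact this.1.2
          · refine hc.insert ?_
            intro w hw
            have := ht hw
            rw [hB, Finset.mem_filter, Finset.mem_erase] at this
            rw [SimpleGraph.compl_adj]
            exact ⟨fun h => this.1.1 h.symm, this.2⟩

/-- The set defining `R(k+1, l+1)` contains `(k+l).choose k`. -/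
theorem choose_mem (k l : ℕ) :
    (k + l).choose k ∈ {n : ℕ | ∀ G : SimpleGraph (Fin n),
      ¬ G.CliqueFree (k + 1) ∨ ¬ Gᶜ.CliqueFree (l + 1)} := by
  intro G
  rcases erdos_szekeres G k l Finset.univ (by simp) with ⟨t, -, h⟩ | ⟨t, -, h⟩
  · exact Or.inl (fun hf => hf t h)
  · exact Or.inr (fun hf => hf t h)

theorem ramsey_le_choose (k l : ℕ) : ramsey (k + 1) (l + 1) ≤ (k + l).choose k :=
  Nat.sInf_le (choose_mem k l)

/-- Any finset with at least `R(k+1, l+1)` vertices contains a `(k+1)`-clique or an independent
set of size `l+1`. -/
theorem ramsey_spec {V : Type*} [DecidableEq V] (G : SimpleGraph V) (k l : ℕ) (s : Finset V)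
    (hs : ramsey (k + 1) (l + 1) ≤ s.card) :
    (∃ t ⊆ s, G.IsNClique (k + 1) t) ∨ (∃ t ⊆ s, Gᶜ.IsNClique (l + 1) t) := by
  classical
  have hmem : ramsey (k + 1) (l + 1) ∈ {n : ℕ | ∀ G : SimpleGraph (Fin n),
      ¬ G.CliqueFree (k + 1) ∨ ¬ Gᶜ.CliqueFree (l + 1)} :=
    Nat.sInf_mem ⟨_, choose_mem k l⟩
  set n := ramsey (k + 1) (l + 1) with hn
  obtain ⟨f⟩ : Nonempty (Fin n ↪ s) := by
    apply Function.Embedding.nonempty_of_card_le
    simpa using hs
  let g : Fin n ↪ V := f.trans (Function.Embedding.subtype _)
  have hg : ∀ i, g i ∈ s := fun i => (f i).2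
  rcases hmem (G.comap g) with h | h
  · left
    rw [SimpleGraph.CliqueFree] at h
    push Not at h
    obtain ⟨t, ht⟩ := h
    refine ⟨t.map g, ?_, ?_⟩
    · intro x hx
      rw [Finset.mem_map] at hx
      obtain ⟨i, -, rfl⟩ := hx
      exact hg i
    · rw [SimpleGraph.isNClique_iff] at ht ⊢
      refine ⟨?_, by rw [Finset.card_map]; exact ht.2⟩
      intro x hx y hy hxy
      simp only [Finset.coe_map, Set.mem_image, Finset.mem_coe] at hx hy
      obtain ⟨i, hi, rfl⟩ := hx
      obtain ⟨j, hj, rfl⟩ := hy
      have hij : i ≠ j := fun h => hxy (by rw [h])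
      exact ht.1 (Finset.mem_coe.mpr hi) (Finset.mem_coe.mpr hj) hij
  · right
    rw [SimpleGraph.CliqueFree] at h
    push Not at h
    obtain ⟨t, ht⟩ := h
    refine ⟨t.map g, ?_, ?_⟩
    · intro x hx
      rw [Finset.mem_map] at hx
      obtain ⟨i, -, rfl⟩ := hx
      exact hg i
    · rw [SimpleGraph.isNClique_iff] at ht ⊢
      refine ⟨?_, by rw [Finset.card_map]; exact ht.2⟩
      intro x hx y hy hxy
      simp only [Finset.coe_map, Set.mem_image, Finset.mem_coe] at hx hy
      obtain ⟨i, hi, rfl⟩ := hx
      obtain ⟨j, hj, rfl⟩ := hy
      have hij : i ≠ j := fun h => hxy (by rw [h])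
      have := ht.1 (Finset.mem_coe.mpr hi) (Finset.mem_coe.mpr hj) hij
      rw [SimpleGraph.compl_adj] at this ⊢
      exact ⟨hxy, this.2⟩

end Pool.Agent.Hhelper59.Rk
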