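import Mathlib
import Pool.Agent.Hhelper59.Rk.Basic

/-!
# Erdős' lower bound for the diagonal Ramsey numbers
-/

namespace Pool.Agent.Hhelper59.Rk

open Finset

/-- The number of two-colourings which are constant equal to `b` on `E`. -/
theorem card_const {α : Type*} [Fintype α] [DecidableEq α] (E : Finset α) (b : Bool) :
    (Finset.univ.filter (fun c : α → Bool => ∀ x ∈ E, c x = b)).card =
      2 ^ (Fintype.card α - E.card) := by
  have h1 : (Finset.univ.filter (fun c : α → Bool => ∀ x ∈ E, c x = b)) =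
      Fintype.piFinset (fun x => if x ∈ E then ({b} : Finset Bool) else Finset.univ) := by
    ext c
    simp only [Finset.mem_filter, Finset.mem_univ, true_and, Fintype.mem_piFinset]
    constructor
    · intro h x
      by_cases hx : x ∈ E
      · simp [hx, h x hx]
      · simp [hx]
    · intro h x hx
      have := h x
      simpa [hx] using this
  rw [h1, Fintype.card_piFinset]
  have h2 : ∀ x : α, (if x ∈ E then ({b} : Finset Bool) else Finset.univ).card =
      if x ∈ E then 1 else 2 := by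
    intro x
    split_ifs <;> simp
  rw [Finset.prod_congr rfl (fun x _ => h2 x), Finset.prod_ite]
  simp only [Finset.prod_const_one, one_mul, Finset.prod_const]
  congr 1
  have h3 : (Finset.univ.filter (fun x => ¬ x ∈ E)) = Eᶜ := by
    ext x; simp
  rw [h3, Finset.card_compl]

/-- Erdős' bound: if `2 C(n,k) < 2 ^ C(k,2)`, then some graph on `n` vertices has neither a
`k`-clique nor an independent set of size `k`. -/
theorem exists_graph (n k : ℕ) (h : 2 * n.choose k < 2 ^ (k.choose 2)) :
    ∃ G : SimpleGraph (Fin n), G.CliqueFree k ∧ Gᶜ.CliqueFree k := by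
  classical
  let E : Finset (Fin n) → Finset (Sym2 (Fin n)) := fun s =>
    s.offDiag.image (fun p => s(p.1, p.2))
  have hE : ∀ s : Finset (Fin n), s.card = k → (E s).card = k.choose 2 := by
    intro s hs
    have := Sym2.card_image_offDiag s
    rw [hs] at this
    exact this
  have hcardE : ∀ s : Finset (Fin n), (E s).card ≤ Fintype.card (Sym2 (Fin n)) := fun s =>
    Finset.card_le_univ _
  let T := Fintype.card (Sym2 (Fin n))
  -- bad colourings
  let Bad : Finset (Sym2 (Fin n) → Bool) :=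
    (Finset.powersetCard k (Finset.univ : Finset (Fin n))).biUnion (fun s =>
      (Finset.univ : Finset Bool).biUnion (fun b =>
        Finset.univ.filter (fun c : Sym2 (Fin n) → Bool => ∀ x ∈ E s, c x = b)))
  have hBad : Bad.card * 2 ^ (k.choose 2) ≤ n.choose k * (2 * 2 ^ T) := by
    have h1 : Bad.card ≤ ∑ s ∈ Finset.powersetCard k (Finset.univ : Finset (Fin n)),
        ∑ b : Bool, 2 ^ (T - (E s).card) := by
      refine Finset.card_biUnion_le.trans (Finset.sum_le_sum fun s _ => ?_)
      refine Finset.card_biUnion_le.trans (Finset.sum_le_sum fun b _ => ?_)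
      exact (card_const (E s) b).le
    calc Bad.card * 2 ^ (k.choose 2)
        ≤ (∑ s ∈ Finset.powersetCard k (Finset.univ : Finset (Fin n)),
        ∑ b : Bool, 2 ^ (T - (E s).card)) * 2 ^ (k.choose 2) := Nat.mul_le_mul_right _ h1
      _ = ∑ s ∈ Finset.powersetCard k (Finset.univ : Finset (Fin n)), (2 * 2 ^ T) := by
          rw [Finset.sum_mul]
          refine Finset.sum_congr rfl fun s hs => ?_
          rw [Finset.mem_powersetCard] at hs
          have h2 := hE s hs.2
          have h3 : k.choose 2 ≤ T := h2 ▸ hcardE s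
          simp only [Finset.sum_const, Finset.card_univ, Fintype.card_bool, smul_eq_mul]
          rw [h2, mul_assoc, ← pow_add, Nat.sub_add_cancel h3]
      _ = n.choose k * (2 * 2 ^ T) := by
          rw [Finset.sum_const, Finset.card_powersetCard, Finset.card_univ, Fintype.card_fin,
            smul_eq_mul]
  have hlt : Bad.card < 2 ^ T := by
    by_contra hcon
    push Not at hcon
    have h1 : 2 ^ T * 2 ^ (k.choose 2) ≤ n.choose k * (2 * 2 ^ T) :=
      (Nat.mul_le_mul_right _ hcon).trans hBad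
    have h2 : 2 ^ T * 2 ^ (k.choose 2) ≤ 2 ^ T * (2 * n.choose k) := by
      calc _ ≤ _ := h1
        _ = _ := by ring
    have h3 := Nat.le_of_mul_le_mul_left h2 (by positivity)
    omega
  have hex : ∃ c : Sym2 (Fin n) → Bool, c ∉ Bad := by
    by_contra hcon
    push Not at hcon
    have : Bad = Finset.univ := Finset.eq_univ_iff_forall.mpr hcon
    rw [this, Finset.card_univ, Fintype.card_fun, Fintype.card_bool] at hlt
    exact lt_irrefl _ hlt
  obtain ⟨c, hc⟩ := hex
  let G : SimpleGraph (Fin n) := SimpleGraph.fromRel (fun x y => c s(x, y) = true)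
  have hGadj : ∀ x y, G.Adj x y ↔ x ≠ y ∧ c s(x, y) = true := by
    intro x y
    simp only [G, SimpleGraph.fromRel_adj]
    rw [Sym2.eq_swap (a := y) (b := x)]
    tauto
  have hbad : ∀ (s : Finset (Fin n)) (b : Bool), s.card = k →
      (∀ x ∈ s, ∀ y ∈ s, x ≠ y → c s(x, y) = b) → False := by
    intro s b hs h
    apply hc
    simp only [Bad, Finset.mem_biUnion, Finset.mem_filter, Finset.mem_univ, true_and]
    refine ⟨s, by simp [Finset.mem_powersetCard, hs], b, ?_⟩
    intro e he
    simp only [E, Finset.mem_image] at he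
    obtain ⟨⟨x, y⟩, hxy, rfl⟩ := he
    rw [Finset.mem_offDiag] at hxy
    exact h x hxy.1 y hxy.2.1 hxy.2.2
  refine ⟨G, ?_, ?_⟩
  · intro s hs
    rw [SimpleGraph.isNClique_iff] at hs
    refine hbad s true hs.2 (fun x hx y hy hxy => ?_)
    exact ((hGadj x y).mp (hs.1 (Finset.mem_coe.mpr hx) (Finset.mem_coe.mpr hy) hxy)).2
  · intro s hs
    rw [SimpleGraph.isNClique_iff] at hs
    refine hbad s false hs.2 (fun x hx y hy hxy => ?_)
    have := hs.1 (Finset.mem_coe.mpr hx) (Finset.mem_coe.mpr hy) hxy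
    rw [SimpleGraph.compl_adj, hGadj] at this
    by_contra hcon
    rw [Bool.not_eq_false] at hcon
    exact this.2 ⟨hxy, hcon⟩

/-- `n^2 < 2^k` implies `2 C(n,k) < 2 ^ C(k,2)` for `k ≥ 4`. -/
theorem choose_lt (n k : ℕ) (hk : 4 ≤ k) (h : n ^ 2 < 2 ^ k) :
    2 * n.choose k < 2 ^ (k.choose 2) := by
  have hfac : ∀ j : ℕ, 4 * 2 ^ (j + 4) ≤ ((j + 4).factorial) ^ 2 := by
    intro j
    induction j with
    | zero => decide
    | succ j ih =>
      have h1 : (j + 1 + 4).factorial = (j + 5) * (j + 4).factorial := by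
        rw [show j + 1 + 4 = (j + 4) + 1 by ring, Nat.factorial_succ]
      rw [h1]
      calc 4 * 2 ^ (j + 1 + 4) = 2 * (4 * 2 ^ (j + 4)) := by ring
        _ ≤ (j + 5) ^ 2 * ((j + 4).factorial) ^ 2 := by
            apply Nat.mul_le_mul _ ih
            nlinarith
        _ = _ := by ring
  have hf : 4 * 2 ^ k ≤ (k.factorial) ^ 2 := by
    have := hfac (k - 4)
    rwa [Nat.sub_add_cancel hk] at this
  have hc : n.choose k * k.factorial ≤ n ^ k := by
    rw [mul_comm, ← Nat.descFactorial_eq_factorial_mul_choose]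
    exact Nat.descFactorial_le_pow n k
  have h2 : 2 * k.choose 2 + k = k * k := by
    rw [Nat.choose_two_right]
    have := Nat.div_mul_cancel (Nat.even_mul_pred_self k).two_dvd
    obtain ⟨j, rfl⟩ : ∃ j, k = j + 1 := ⟨k - 1, by omega⟩
    simp only [Nat.add_sub_cancel] at this ⊢
    have h3 : 2 * ((j + 1) * j / 2) = (j + 1) * j := by rw [mul_comm]; exact this
    rw [h3]; ring
  have hlt : (n ^ 2) ^ k < (2 ^ k) ^ k := Nat.pow_lt_pow_left h (by omega)
  have key : (2 * n.choose k) ^ 2 * (4 * 2 ^ k) < (2 ^ (k.choose 2)) ^ 2 * (4 * 2 ^ k) := by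
    calc (2 * n.choose k) ^ 2 * (4 * 2 ^ k)
        ≤ (2 * n.choose k) ^ 2 * (k.factorial) ^ 2 := Nat.mul_le_mul_left _ hf
      _ = 4 * (n.choose k * k.factorial) ^ 2 := by ring
      _ ≤ 4 * (n ^ k) ^ 2 := by gcongr
      _ = 4 * (n ^ 2) ^ k := by ring
      _ < 4 * (2 ^ k) ^ k := by omega
      _ = 4 * 2 ^ (k * k) := by rw [← pow_mul]
      _ = 4 * 2 ^ (2 * k.choose 2 + k) := by rw [h2]
      _ = (2 ^ (k.choose 2)) ^ 2 * (4 * 2 ^ k) := by
          rw [pow_add, ← pow_mul, mul_comm (k.choose 2) 2]; ring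
  have h4 := lt_of_mul_lt_mul_right key (by positivity)
  exact lt_of_pow_lt_pow_left₀ 2 (by positivity) h4

/-- Erdős 1947: `2^k ≤ R(k,k)^2` for `k ≥ 4`. -/
theorem two_pow_le (k : ℕ) (hk : 4 ≤ k) : 2 ^ k ≤ (ramsey k k) ^ 2 := by
  by_contra hcon
  push Not at hcon
  obtain ⟨G, h1, h2⟩ := exists_graph _ _ (choose_lt _ _ hk hcon)
  obtain ⟨l, rfl⟩ : ∃ l, k = l + 1 := ⟨k - 1, by omega⟩
  rcases ramsey_spec G l l Finset.univ (by simp) with ⟨t, -, h⟩ | ⟨t, -, h⟩
  · exact h1 t h
  · exact h2 t h

end Pool.Agent.Hhelper59.Rk
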