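import Mathlib

/-!
# The numerical inequality `(m^2 C(k-1,m) C(k+m-1,m))^2 < 2^k` for `m = ⌊(k-1)/25⌋`
-/

namespace Pool.Agent.Hhelper59.Rk

open Finset

/-- Termwise comparison of ascending factorials. -/
theorem asc_mul_le (q m : ℕ) : ∀ j : ℕ,
    ((q + 1) * m + 1).ascFactorial j * q ^ j ≤ (q + 1) ^ j * (q * m + 1).ascFactorial j := by
  intro j
  induction j with
  | zero => simp
  | succ j ih =>
    rw [Nat.ascFactorial_succ, Nat.ascFactorial_succ]
    have h1 : ((q + 1) * m + 1 + j) * q ≤ (q + 1) * (q * m + 1 + j) := by nlinarith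
    calc ((q + 1) * m + 1 + j) * ((q + 1) * m + 1).ascFactorial j * q ^ (j + 1)
        = (((q + 1) * m + 1 + j) * q) * (((q + 1) * m + 1).ascFactorial j * q ^ j) := by ring
      _ ≤ ((q + 1) * (q * m + 1 + j)) * ((q + 1) ^ j * (q * m + 1).ascFactorial j) :=
          Nat.mul_le_mul h1 ih
      _ = _ := by ring

/-- `C((q+1)(m+1), m+1) q^q ≤ (q+1)^(q+1) C((q+1)m, m)`. -/
theorem choose_step (q m : ℕ) :
    ((q + 1) * (m + 1)).choose (m + 1) * q ^ q ≤ (q + 1) ^ (q + 1) * ((q + 1) * m).choose m := by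
  -- (q+1)(m+1) = (q+1) m + q + 1
  have h1 : ((q + 1) * (m + 1)).choose (m + 1) * (m + 1).factorial * (q * (m + 1)).factorial =
      ((q + 1) * (m + 1)).factorial := by
    have := Nat.choose_mul_factorial_mul_factorial (n := (q + 1) * (m + 1)) (k := m + 1)
      (by nlinarith)
    have h2 : (q + 1) * (m + 1) - (m + 1) = q * (m + 1) := by
      rw [Nat.add_mul, one_mul, Nat.add_sub_cancel]
    rwa [h2] at this
  have h2 : ((q + 1) * m).choose m * m.factorial * (q * m).factorial =
      ((q + 1) * m).factorial := by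
    have := Nat.choose_mul_factorial_mul_factorial (n := (q + 1) * m) (k := m) (by nlinarith)
    have h2 : (q + 1) * m - m = q * m := by
      rw [Nat.add_mul, one_mul, Nat.add_sub_cancel]
    rwa [h2] at this
  have h3 : ((q + 1) * (m + 1)).factorial =
      ((q + 1) * m).factorial * ((q + 1) * m + 1).ascFactorial q * ((q + 1) * (m + 1)) := by
    rw [show (q + 1) * (m + 1) = ((q + 1) * m + q) + 1 by ring, Nat.factorial_succ,
      Nat.factorial_mul_ascFactorial]
    ring
  have h4 : (q * (m + 1)).factorial = (q * m).factorial * (q * m + 1).ascFactorial q := by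
    rw [Nat.factorial_mul_ascFactorial, show q * (m + 1) = q * m + q by ring]
  have h5 := asc_mul_le q m q
  -- combine
  have hA : 0 < (q * m + 1).ascFactorial q := Nat.ascFactorial_pos _ _
  have hB : 0 < m.factorial := Nat.factorial_pos _
  have hC : 0 < (q * m).factorial := Nat.factorial_pos _
  set X := ((q + 1) * (m + 1)).choose (m + 1)
  set Y := ((q + 1) * m).choose m
  set a := ((q + 1) * m + 1).ascFactorial q
  set b := (q * m + 1).ascFactorial q
  have h6 : X * ((m + 1) * m.factorial) * ((q * m).factorial * b) =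
      (Y * m.factorial * (q * m).factorial) * a * ((q + 1) * (m + 1)) := by
    rw [← h4, ← Nat.factorial_succ, h1, h2, h3]
  have h7 : X * b = Y * a * (q + 1) := by
    have hpos : 0 < (m + 1) * m.factorial * (q * m).factorial := by positivity
    apply Nat.eq_of_mul_eq_mul_right hpos
    calc X * b * ((m + 1) * m.factorial * (q * m).factorial)
        = X * ((m + 1) * m.factorial) * ((q * m).factorial * b) := by ring
      _ = _ := h6
      _ = _ := by ring
  have h8 : X * q ^ q * b ≤ (q + 1) ^ (q + 1) * Y * b := by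
    calc X * q ^ q * b = (X * b) * q ^ q := by ring
      _ = (Y * (q + 1)) * (a * q ^ q) := by rw [h7]; ring
      _ ≤ (Y * (q + 1)) * ((q + 1) ^ q * b) := Nat.mul_le_mul_left _ h5
      _ = _ := by ring
  exact Nat.le_of_mul_le_mul_right h8 hA

/-- The two binomial coefficients together. -/
theorem prod_step (m : ℕ) :
    ((25 * (m + 1)).choose (m + 1) * (26 * (m + 1)).choose (m + 1)) * 24 ^ 24 ≤
      26 ^ 26 * ((25 * m).choose m * (26 * m).choose m) := by
  have h1 := choose_step 24 m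
  have h2 := choose_step 25 m
  simp only [Nat.reduceAdd] at h1 h2
  have h3 := Nat.mul_le_mul h1 h2
  have hpos : 0 < 25 ^ 25 := by positivity
  refine Nat.le_of_mul_le_mul_right (c := 25 ^ 25) ?_ hpos
  calc _ = _ := by ring
    _ ≤ _ := h3
    _ = _ := by ring

theorem prod_bound : ∀ i : ℕ,
    ((25 * (i + 2)).choose (i + 2) * (26 * (i + 2)).choose (i + 2)) * 24 ^ (24 * i) ≤
      26 ^ (26 * i) * 1624350 := by
  intro i
  induction i with
  | zero =>
    have h1 : (25 * (0 + 2)).choose (0 + 2) = 1225 := by rfl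
    have h2 : (26 * (0 + 2)).choose (0 + 2) = 1326 := by rfl
    rw [h1, h2]
    norm_num
  | succ i ih =>
    have h := prod_step (i + 2)
    calc ((25 * (i + 1 + 2)).choose (i + 1 + 2) * (26 * (i + 1 + 2)).choose (i + 1 + 2)) *
          24 ^ (24 * (i + 1))
        = ((25 * (i + 2 + 1)).choose (i + 2 + 1) * (26 * (i + 2 + 1)).choose (i + 2 + 1)) *
          24 ^ 24 * 24 ^ (24 * i) := by
          rw [show i + 1 + 2 = i + 2 + 1 by ring, show 24 * (i + 1) = 24 + 24 * i by ring,
            pow_add 24]; ring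
      _ ≤ 26 ^ 26 * ((25 * (i + 2)).choose (i + 2) * (26 * (i + 2)).choose (i + 2)) *
          24 ^ (24 * i) := Nat.mul_le_mul_right _ h
      _ = 26 ^ 26 * (((25 * (i + 2)).choose (i + 2) * (26 * (i + 2)).choose (i + 2)) *
          24 ^ (24 * i)) := by ring
      _ ≤ 26 ^ 26 * (26 ^ (26 * i) * 1624350) := Nat.mul_le_mul_left _ ih
      _ = _ := by rw [show 26 * (i + 1) = 26 + 26 * i by ring, pow_add 26]; ring

set_option exponentiation.threshold 1000 in
theorem pow_ineq : ∀ i : ℕ,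
    ((i + 2) ^ 2 * 1624350 * 26 ^ (26 * i)) ^ 2 < 2 ^ (25 * i + 51) * 24 ^ (48 * i) := by
  intro i
  rcases Nat.lt_or_ge i 7 with hi | hi
  · interval_cases i <;> norm_num
  · obtain ⟨j, rfl⟩ : ∃ j, i = j + 7 := ⟨i - 7, by omega⟩
    clear hi
    induction j with
    | zero => norm_num
    | succ j ih =>
      have h1 : 10 ^ 4 * 26 ^ 52 ≤ 9 ^ 4 * (2 ^ 25 * 24 ^ 48) := by norm_num
      have h2 : 9 * (j + 10) ≤ 10 * (j + 9) := by omega
      have h3 : 9 ^ 4 * (j + 10) ^ 4 ≤ 10 ^ 4 * (j + 9) ^ 4 := by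
        have := Nat.pow_le_pow_left h2 4
        rwa [mul_pow, mul_pow] at this
      have h4 : (j + 10) ^ 4 * 26 ^ 52 ≤ (j + 9) ^ 4 * (2 ^ 25 * 24 ^ 48) := by
        refine Nat.le_of_mul_le_mul_left (c := 9 ^ 4) ?_ (by positivity)
        calc 9 ^ 4 * ((j + 10) ^ 4 * 26 ^ 52) = (9 ^ 4 * (j + 10) ^ 4) * 26 ^ 52 := by ring
          _ ≤ (10 ^ 4 * (j + 9) ^ 4) * 26 ^ 52 := Nat.mul_le_mul_right _ h3
          _ = (j + 9) ^ 4 * (10 ^ 4 * 26 ^ 52) := by ring
          _ ≤ (j + 9) ^ 4 * (9 ^ 4 * (2 ^ 25 * 24 ^ 48)) := Nat.mul_le_mul_left _ h1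
          _ = _ := by ring
      have e1 : ((j + 1 + 7 + 2) ^ 2 * 1624350 * 26 ^ (26 * (j + 1 + 7))) ^ 2 =
          (j + 10) ^ 4 * 26 ^ 52 * (1624350 * 26 ^ (26 * (j + 7))) ^ 2 := by
        rw [show 26 * (j + 1 + 7) = 26 + 26 * (j + 7) by ring, pow_add]; ring
      have e2 : ((j + 7 + 2) ^ 2 * 1624350 * 26 ^ (26 * (j + 7))) ^ 2 =
          (j + 9) ^ 4 * (1624350 * 26 ^ (26 * (j + 7))) ^ 2 := by ring
      have e3 : 2 ^ (25 * (j + 1 + 7) + 51) * 24 ^ (48 * (j + 1 + 7)) =
          (2 ^ 25 * 24 ^ 48) * (2 ^ (25 * (j + 7) + 51) * 24 ^ (48 * (j + 7))) := by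
        rw [show 25 * (j + 1 + 7) + 51 = 25 + (25 * (j + 7) + 51) by ring,
          show 48 * (j + 1 + 7) = 48 + 48 * (j + 7) by ring, pow_add 2, pow_add 24]; ring
      rw [e1, e3]
      rw [e2] at ih
      calc (j + 10) ^ 4 * 26 ^ 52 * (1624350 * 26 ^ (26 * (j + 7))) ^ 2
          ≤ ((j + 9) ^ 4 * (2 ^ 25 * 24 ^ 48)) * (1624350 * 26 ^ (26 * (j + 7))) ^ 2 :=
            Nat.mul_le_mul_right _ h4
        _ = (2 ^ 25 * 24 ^ 48) * ((j + 9) ^ 4 * (1624350 * 26 ^ (26 * (j + 7))) ^ 2) := by ring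
        _ < _ := Nat.mul_lt_mul_of_pos_left ih (by positivity)

/-- The base inequality along `k = 25 m + 1`. -/
theorem base_ineq (m : ℕ) (hm : 1 ≤ m) :
    (m ^ 2 * ((25 * m).choose m * (26 * m).choose m)) ^ 2 < 2 ^ (25 * m + 1) := by
  rcases Nat.lt_or_ge m 2 with h | h
  · have : m = 1 := by omega
    subst this
    norm_num
  · obtain ⟨i, rfl⟩ : ∃ i, m = i + 2 := ⟨m - 2, by omega⟩
    have h1 := prod_bound i
    have h2 := pow_ineq i
    have h3 : (((i + 2) ^ 2 * ((25 * (i + 2)).choose (i + 2) * (26 * (i + 2)).choose (i + 2))) ^ 2) *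
        24 ^ (48 * i) < 2 ^ (25 * (i + 2) + 1) * 24 ^ (48 * i) := by
      calc (((i + 2) ^ 2 * ((25 * (i + 2)).choose (i + 2) * (26 * (i + 2)).choose (i + 2))) ^ 2) *
            24 ^ (48 * i)
          = ((i + 2) ^ 2 * (((25 * (i + 2)).choose (i + 2) * (26 * (i + 2)).choose (i + 2)) *
            24 ^ (24 * i))) ^ 2 := by
            rw [show 48 * i = 24 * i * 2 by ring, pow_mul]; ring
        _ ≤ ((i + 2) ^ 2 * (26 ^ (26 * i) * 1624350)) ^ 2 :=
            Nat.pow_le_pow_left (Nat.mul_le_mul_left _ h1) 2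
        _ = ((i + 2) ^ 2 * 1624350 * 26 ^ (26 * i)) ^ 2 := by ring
        _ < _ := h2
        _ = _ := by rw [show 25 * (i + 2) + 1 = 25 * i + 51 by ring]
    exact lt_of_mul_lt_mul_right h3 (Nat.zero_le _)

/-- The inequality for all `k = 25 m + 1 + e`. -/
theorem ineq_aux (m : ℕ) (hm : 1 ≤ m) : ∀ e : ℕ,
    (m ^ 2 * ((25 * m + e).choose m * (26 * m + e).choose m)) ^ 2 < 2 ^ (25 * m + e + 1) := by
  intro e
  induction e with
  | zero => simpa using base_ineq m hm
  | succ e ih =>
    -- C(n+1, m) (n+1-m) = (n+1) C(n, m)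
    have h1 : (25 * m + e + 1).choose m * (24 * m + e + 1) =
        (25 * m + e + 1) * (25 * m + e).choose m := by
      have h2 := Nat.choose_mul_succ_eq (25 * m + e) m
      have h3 : 25 * m + e + 1 - m = 24 * m + e + 1 := by omega
      rw [h3] at h2
      linarith
    have h2 : (26 * m + e + 1).choose m * (25 * m + e + 1) =
        (26 * m + e + 1) * (26 * m + e).choose m := by
      have h2 := Nat.choose_mul_succ_eq (26 * m + e) m
      have h3 : 26 * m + e + 1 - m = 25 * m + e + 1 := by omega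
      rw [h3] at h2
      linarith
    set X := (25 * m + e + 1).choose m with hX
    set Y := (26 * m + e + 1).choose m with hY
    set x := (25 * m + e).choose m with hx
    set y := (26 * m + e).choose m with hy
    have h3 : X * Y * (24 * m + e + 1) = (26 * m + e + 1) * (x * y) := by
      have hpos : 0 < 25 * m + e + 1 := by omega
      refine Nat.eq_of_mul_eq_mul_right hpos ?_
      calc X * Y * (24 * m + e + 1) * (25 * m + e + 1)
          = (X * (24 * m + e + 1)) * (Y * (25 * m + e + 1)) := by ring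
        _ = _ := by rw [h1, h2]; ring
    have h4 : (26 * m + e + 1) ^ 2 ≤ 2 * (24 * m + e + 1) ^ 2 := by nlinarith
    have hpos : 0 < (24 * m + e + 1) ^ 2 := by positivity
    refine lt_of_mul_lt_mul_right (a := (24 * m + e + 1) ^ 2) ?_ (Nat.zero_le _)
    rw [show 25 * m + (e + 1) = 25 * m + e + 1 by ring,
      show 26 * m + (e + 1) = 26 * m + e + 1 by ring, ← hX, ← hY]
    calc (m ^ 2 * (X * Y)) ^ 2 * (24 * m + e + 1) ^ 2
        = (m ^ 2 * (X * Y * (24 * m + e + 1))) ^ 2 := by ring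
      _ = (m ^ 2 * (x * y)) ^ 2 * (26 * m + e + 1) ^ 2 := by rw [h3]; ring
      _ ≤ (m ^ 2 * (x * y)) ^ 2 * (2 * (24 * m + e + 1) ^ 2) := Nat.mul_le_mul_left _ h4
      _ < 2 ^ (25 * m + e + 1) * (2 * (24 * m + e + 1) ^ 2) :=
          Nat.mul_lt_mul_of_pos_right ih (by positivity)
      _ = _ := by ring

theorem choose_mono_left (n m : ℕ) (hm : m ≤ n / 2) (s : ℕ) (hs : s ≤ m) :
    n.choose s ≤ n.choose m := by
  obtain ⟨d, rfl⟩ : ∃ d, m = s + d := ⟨m - s, by omega⟩
  clear hs
  induction d with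
  | zero => rfl
  | succ d ih =>
    exact (ih (by omega)).trans (Nat.choose_le_succ_of_lt_half_left (by omega))

/-- The inequality used in the main argument. -/
theorem main_ineq (k m t : ℕ) (hm : 1 ≤ m) (hk : 25 * m + 1 ≤ k) (ht : t ≤ k - 1) :
    (m * ∑ s ∈ Finset.Icc 1 m, t.choose s * (k + s - 1).choose s) ^ 2 < 2 ^ k := by
  have h1 : ∑ s ∈ Finset.Icc 1 m, t.choose s * (k + s - 1).choose s ≤
      m * ((k - 1).choose m * (k + m - 1).choose m) := by
    calc ∑ s ∈ Finset.Icc 1 m, t.choose s * (k + s - 1).choose s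
        ≤ ∑ s ∈ Finset.Icc 1 m, ((k - 1).choose m * (k + m - 1).choose m) := by
          refine Finset.sum_le_sum fun s hs => ?_
          rw [Finset.mem_Icc] at hs
          refine Nat.mul_le_mul ?_ ?_
          · calc t.choose s ≤ (k - 1).choose s := Nat.choose_le_choose s ht
              _ ≤ (k - 1).choose m := choose_mono_left (k - 1) m (by omega) s hs.2
          · have e1 : (k + s - 1).choose s = (k + s - 1).choose (k - 1) := by
              rw [← Nat.choose_symm (by omega)]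
              congr 1; omega
            have e2 : (k + m - 1).choose m = (k + m - 1).choose (k - 1) := by
              rw [← Nat.choose_symm (by omega)]
              congr 1; omega
            rw [e1, e2]
            exact Nat.choose_le_choose _ (by omega)
      _ = _ := by rw [Finset.sum_const, Nat.card_Icc, smul_eq_mul, Nat.add_sub_cancel]
  obtain ⟨e, rfl⟩ : ∃ e, k = 25 * m + 1 + e := ⟨k - (25 * m + 1), by omega⟩
  have h2 := ineq_aux m hm e
  have e1 : 25 * m + 1 + e - 1 = 25 * m + e := by omega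
  have e2 : 25 * m + 1 + e + m - 1 = 26 * m + e := by omega
  rw [e1, e2] at h1
  calc _ ≤ (m * (m * ((25 * m + e).choose m * (26 * m + e).choose m))) ^ 2 :=
        Nat.pow_le_pow_left (Nat.mul_le_mul_left _ h1) 2
    _ = (m ^ 2 * ((25 * m + e).choose m * (26 * m + e).choose m)) ^ 2 := by ring
    _ < _ := h2
    _ = _ := by rw [show 25 * m + e + 1 = 25 * m + 1 + e by ring]

end Pool.Agent.Hhelper59.Rk
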